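import Pool.Agent.Lib.MP_d9b062_al.Asy
import Pool.Agent.Lib.MP_d9b062_al.LU

/-!
# Asymptotic expansions of the factors of the block LU decomposition

(Part of task NOREL of the `MP_d9b062_al` project.)
-/

set_option linter.unusedSectionVars false

namespace Pool.Agent.Lib.MP_d9b062_al

open Filter Asymptotics
open scoped Topology

variable {E : Type*} [NormedAddCommGroup E] [InnerProductSpace ℝ E] [CompleteSpace E]
  [FiniteDimensional ℝ E] {m : E →L[ℝ] E}

section Ring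

variable {R : Type*} [NormedRing R] [NormedAlgebra ℝ R] {ι : Type*} [Fintype ι] [LinearOrder ι]
  {P : ι → R}

lemma ExpSum.mul {f g : ℕ → R} (hf : ExpSum m f) (hg : ExpSum m g) :
    ExpSum m (fun n => f n * g n) :=
  ExpSum.bilin (ContinuousLinearMap.mul ℝ R) hf hg

lemma Asy.mul_const (hm : star m * m = 1) {f : ℕ → R} (hf : Asy m f) (a : R) :
    Asy m (fun n => f n * a) := hf.mul hm (Asy.const a)

lemma Asy.const_mul (hm : star m * m = 1) {f : ℕ → R} (hf : Asy m f) (a : R) :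
    Asy m (fun n => a * f n) := (Asy.const a).mul hm hf

lemma Asy.Mi (hm : star m * m = 1) {f : ℕ → R} (hf : Asy m f) (i : ι) :
    Asy m (fun n => Mi P i (f n)) :=
  ((hf.const_mul hm (Qge P i)).mul_const hm (Qge P i)).add (Asy.const _)

lemma isBigO_Mi {f : ℕ → R} {T₀ : R} {g : ℕ → ℝ} (h : (fun n => f n - T₀) =O[atTop] g) (i : ι) :
    (fun n => MP_d9b062_al.Mi P i (f n) - MP_d9b062_al.Mi P i T₀) =O[atTop] g := by
  have h1 : (fun n => MP_d9b062_al.Mi P i (f n) - MP_d9b062_al.Mi P i T₀) =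
      fun n => Qge P i * (f n - T₀) * Qge P i := by
    funext n
    rw [MP_d9b062_al.Mi, MP_d9b062_al.Mi]
    noncomm_ring
  rw [h1]
  have h2 : (fun _ : ℕ => Qge P i) =O[atTop] fun _ : ℕ => (1 : ℝ) := isBigO_const_one ℝ _ _
  simpa using (h2.mul h).mul h2

lemma tendsto_of_isBigO_exp {F : Type*} [NormedAddCommGroup F] {f : ℕ → F} {T₀ : F} {c : ℝ}
    (hc : c < 0) (h : (fun n => f n - T₀) =O[atTop] fun n : ℕ => Real.exp (c * n)) :
    Tendsto f atTop (𝓝 T₀) := by
  have := (h.trans_tendsto (tendsto_exp_zero hc)).add_const T₀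
  simpa using this

lemma eventually_reg [CompleteSpace R] {f : ℕ → R} {T₀ : R} (h₀ : Reg P T₀)
    (h : Tendsto f atTop (𝓝 T₀)) : ∀ᶠ n in atTop, Reg P (f n) := by
  have : ∀ i : ι, ∀ᶠ n in atTop, IsUnit (MP_d9b062_al.Mi P i (f n)) := by
    intro i
    have h1 : Tendsto (fun n => MP_d9b062_al.Mi P i (f n)) atTop
        (𝓝 (MP_d9b062_al.Mi P i T₀)) :=
      ((h.const_mul (Qge P i)).mul_const (Qge P i)).add_const (Qlt P i)
    exact h1.eventually (Units.isOpen.mem_nhds (h₀ i))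
  exact eventually_all.2 this

lemma Asy.yL (hm : star m * m = 1) [CompleteSpace R] {f : ℕ → R} (hf : Asy m f) {T₀ : R}
    (h₀ : Reg P T₀) {c : ℝ} (hc : c < 0)
    (h : (fun n => f n - T₀) =O[atTop] fun n : ℕ => Real.exp (c * n)) :
    Asy m (fun n => yL P (f n)) := by
  unfold MP_d9b062_al.yL
  refine Asy.sum _ fun i _ => ?_
  refine Asy.mul_const hm (Asy.mul hm (hf.mul_const hm _) ?_) _
  obtain ⟨u, hu⟩ := h₀ i
  refine Asy.inverse hm (hf.Mi hm i) u hc ?_
  rw [hu]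
  exact isBigO_Mi h i

lemma Asy.unipInv (hm : star m * m = 1) {f : ℕ → R} (hf : Asy m f) :
    Asy m (fun n => unipInv ι (f n)) := by
  unfold MP_d9b062_al.unipInv
  exact Asy.sum _ fun k _ => Asy.pow hm ((Asy.const (1 : R)).sub hf) k

lemma Asy.yL_inverse (hm : star m * m = 1) [CompleteSpace R] (hP : IsGrading P) {f : ℕ → R}
    (hf : Asy m f) {T₀ : R} (h₀ : Reg P T₀) {c : ℝ} (hc : c < 0)
    (h : (fun n => f n - T₀) =O[atTop] fun n : ℕ => Real.exp (c * n)) :
    Asy m (fun n => Ring.inverse (MP_d9b062_al.yL P (f n))) := by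
  refine (Asy.unipInv (ι := ι) hm (hf.yL hm h₀ hc h)).congr' ?_
  filter_upwards [eventually_reg h₀ (tendsto_of_isBigO_exp hc h)] with n hn
  rw [(yL_unip hP hn).inverse_eq hP lt_trans' (fun i => lt_irrefl i)]

variable [StarRing R] [ContinuousStar R] [StarModule ℝ R]

lemma Asy.star {f : ℕ → R} (hf : Asy m f) : Asy m (fun n => star (f n)) :=
  hf.clm ((starL' ℝ : R ≃L[ℝ] R) : R →L[ℝ] R)

lemma isBigO_star {f : ℕ → R} {T₀ : R} {g : ℕ → ℝ} (h : (fun n => f n - T₀) =O[atTop] g) :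
    (fun n => Star.star (f n) - Star.star T₀) =O[atTop] g := by
  have h1 := (((starL' ℝ : R ≃L[ℝ] R) : R →L[ℝ] R).isBigO_comp (fun n => f n - T₀) atTop).trans h
  refine h1.congr_left fun n => ?_
  simp

lemma Asy.xU_inverse (hm : Star.star m * m = 1) [CompleteSpace R] (hP : IsGrading P)
    (hs : ∀ i, Star.star (P i) = P i) {f : ℕ → R} (hf : Asy m f) {T₀ : R} (h₀ : Reg P T₀) {c : ℝ}
    (hc : c < 0) (h : (fun n => f n - T₀) =O[atTop] fun n : ℕ => Real.exp (c * n)) :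
    Asy m (fun n => Ring.inverse (xU P (f n))) := by
  have h1 := (Asy.yL_inverse hm hP hf.star (h₀.star hs) hc (isBigO_star h)).star
  refine h1.congr' ?_
  filter_upwards [eventually_reg (h₀.star hs) (tendsto_of_isBigO_exp hc (isBigO_star h))]
    with n hn
  rw [xU, inverse_star (yL_isUnit hP hn)]

lemma Asy.dD (hm : Star.star m * m = 1) [CompleteSpace R] (hP : IsGrading P)
    (hs : ∀ i, Star.star (P i) = P i) {f : ℕ → R} (hf : Asy m f) {T₀ : R} (h₀ : Reg P T₀) {c : ℝ}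
    (hc : c < 0) (h : (fun n => f n - T₀) =O[atTop] fun n : ℕ => Real.exp (c * n)) :
    Asy m (fun n => dD P (f n)) :=
  ((hf.yL_inverse hm hP h₀ hc h).mul hm hf).mul hm (hf.xU_inverse hm hP hs h₀ hc h)

end Ring

end Pool.Agent.Lib.MP_d9b062_al
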