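import Pool.Agent.Lib.MP_d9b062_al_h94.AsyOp
import Pool.Agent.Lib.MP_d9b062_al_h64.Basic
import Pool.Agent.Lib.MP_d9b062_al_h9.Generic

/-!
# The isometric part of a block diagonal element

(Part of task NOREL of the `MP_d9b062_al` project.)
-/

set_option linter.unusedSectionVars false

namespace Pool.Agent.Lib.MP_d9b062_al

open Filter Asymptotics
open scoped Topology

section Pyth

variable {N : ℕ} {ι : Type} [Fintype ι] {P : ι → Op N}

lemma inner_star {T : Op N} (v w : V N) : inner ℝ (T v) w = inner ℝ v ((star T) w) := by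
  rw [ContinuousLinearMap.star_eq_adjoint, ContinuousLinearMap.adjoint_inner_right]

lemma norm_sq_grading (hP : IsGrading P) (hs : ∀ i, star (P i) = P i) (v : V N) :
    ‖v‖ ^ 2 = ∑ i, ‖P i v‖ ^ 2 := by
  have h1 : v = ∑ i, P i v := by
    have h : (∑ i, P i) v = (1 : Op N) v := by rw [hP.sum_eq]
    rw [_root_.sum_apply] at h
    exact h.symm
  have h2 : ∀ i, ‖P i v‖ ^ 2 = inner ℝ (P i v) v := by
    intro i
    rw [← real_inner_self_eq_norm_sq, inner_star (T := P i) v (P i v), hs]
    have : P i (P i v) = P i v := by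
      have h := congrArg (fun T : Op N => T v) (hP.idem i)
      exact h
    rw [this, real_inner_comm]
  simp only [h2]
  rw [← sum_inner, ← h1, real_inner_self_eq_norm_sq]

end Pyth

namespace Cell

variable {N : ℕ} {G : Subgroup (Op N)ˣ} {ι : Type} [Fintype ι] [LinearOrder ι] (c : Cell G ι)

/-- the isometric part of a block diagonal element -/
noncomputable def iso (l : Op N) : Op N := ∑ i, Real.exp (-c.tau l i) • (l * c.P i)

variable {l : (Op N)ˣ}

lemma iso_mul_P (l : Op N) (i : ι) : c.iso l * c.P i = Real.exp (-c.tau l i) • (l * c.P i) := by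
  rw [iso, Finset.sum_mul, Finset.sum_eq_single i]
  · rw [smul_mul_assoc, mul_assoc, c.grading.idem]
  · intro j _ hj
    rw [smul_mul_assoc, mul_assoc, c.grading.orth j i hj, mul_zero, smul_zero]
  · intro h
    exact absurd (Finset.mem_univ i) h

lemma P_mul_iso (hl : Diag c.P (l : Op N)) (i : ι) :
    c.P i * c.iso (l : Op N) = c.iso (l : Op N) * c.P i := by
  rw [iso, Finset.sum_mul, Finset.mul_sum]
  refine Finset.sum_congr rfl fun j _ => ?_
  have h1 : c.P i * ((l : Op N) * c.P j) = (l : Op N) * c.P j * c.P i := by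
    rw [← mul_assoc, hl i, mul_assoc, mul_assoc, c.grading.diag j i]
  rw [mul_smul_comm, smul_mul_assoc, h1]

lemma l_mul_P (l : Op N) (i : ι) : l * c.P i = Real.exp (c.tau l i) • (c.iso l * c.P i) := by
  rw [iso_mul_P, smul_smul, ← Real.exp_add, add_neg_cancel, Real.exp_zero, one_smul]

lemma pow_mul_P (hl : Diag c.P (l : Op N)) (n : ℕ) (i : ι) :
    (l : Op N) ^ n * c.P i = Real.exp (c.tau (l : Op N) i * n) • (c.iso (l : Op N) ^ n * c.P i) := by
  induction n with
  | zero => simp
  | succ n ih =>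
    calc (l : Op N) ^ (n + 1) * c.P i = (l : Op N) ^ n * ((l : Op N) * c.P i) := by
          rw [pow_succ, mul_assoc]
      _ = Real.exp (c.tau (l : Op N) i) • (((l : Op N) ^ n * c.P i) * c.iso (l : Op N)) := by
          rw [l_mul_P, ← c.P_mul_iso hl i, mul_smul_comm, mul_assoc]
      _ = Real.exp (c.tau (l : Op N) i * (n + 1 : ℕ)) •
            (c.iso (l : Op N) ^ (n + 1) * c.P i) := by
          rw [ih, smul_mul_assoc, smul_smul, mul_assoc, c.P_mul_iso hl i, ← mul_assoc, ← pow_succ,
            ← Real.exp_add]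
          congr 2
          push_cast
          ring

lemma norm_iso (hl : l ∈ c.L) (v : V N) : ‖c.iso (l : Op N) v‖ = ‖v‖ := by
  have h : ‖c.iso (l : Op N) v‖ ^ 2 = ‖v‖ ^ 2 := by
    rw [norm_sq_grading c.grading c.star_P, norm_sq_grading c.grading c.star_P v]
    refine Finset.sum_congr rfl fun i _ => ?_
    have h1 : c.P i (c.iso (l : Op N) v) = Real.exp (-c.tau (l : Op N) i) •
        ((l : Op N) (c.P i v)) := by
      have h2 : (c.P i * c.iso (l : Op N)) v = (Real.exp (-c.tau (l : Op N) i) •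
        ((l : Op N) * c.P i)) v := by
        rw [c.P_mul_iso hl.2, iso_mul_P]
      exact h2
    rw [h1, norm_smul, c.tau_spec hl, ← mul_assoc, Real.norm_of_nonneg (Real.exp_pos _).le,
      ← Real.exp_add, neg_add_cancel, Real.exp_zero, one_mul]
  exact (pow_left_inj₀ (norm_nonneg _) (norm_nonneg _) two_ne_zero).1 h

lemma star_iso (hl : l ∈ c.L) : star (c.iso (l : Op N)) * c.iso (l : Op N) = 1 := by
  have h := (ContinuousLinearMap.norm_map_iff_adjoint_comp_self (c.iso (l : Op N))).1
    (c.norm_iso hl)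
  rw [ContinuousLinearMap.star_eq_adjoint]
  exact h

lemma iso_inv (hl : l ∈ c.L) :
    c.iso ((l⁻¹ : (Op N)ˣ) : Op N) = star (c.iso (l : Op N)) := by
  have hl' : l⁻¹ ∈ c.L := c.L.inv_mem hl
  -- `iso l⁻¹ * iso l = 1`
  have key : ∀ {l : (Op N)ˣ}, l ∈ c.L → c.iso ((l⁻¹ : (Op N)ˣ) : Op N) * c.iso (l : Op N) = 1 := by
    intro l hl
    have hτ := c.tau_inv hl
    have : c.iso (l : Op N) = ∑ i, Real.exp (-c.tau (l : Op N) i) • (c.P i * l) := by
      rw [iso]
      exact Finset.sum_congr rfl fun i _ => by rw [hl.2 i]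
    rw [this, Finset.mul_sum]
    have h1 : ∀ i, c.iso ((l⁻¹ : (Op N)ˣ) : Op N) * (Real.exp (-c.tau (l : Op N) i) •
        (c.P i * l)) = c.P i := by
      intro i
      rw [mul_smul_comm, ← mul_assoc, iso_mul_P, hτ, smul_mul_assoc, smul_smul, ← Real.exp_add,
        Pi.neg_apply, neg_neg, neg_add_cancel, Real.exp_zero, one_smul, mul_assoc, hl.2 i,
        ← mul_assoc, Units.inv_mul, one_mul]
    rw [Finset.sum_congr rfl fun i _ => h1 i, c.grading.sum_eq]
  have h1 := c.star_iso hl
  have h2 := key hl'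
  rw [inv_inv] at h2
  calc c.iso ((l⁻¹ : (Op N)ˣ) : Op N)
      = (star (c.iso (l : Op N)) * c.iso (l : Op N)) * c.iso ((l⁻¹ : (Op N)ˣ) : Op N) := by
        rw [h1, one_mul]
    _ = star (c.iso (l : Op N)) := by rw [mul_assoc, h2, mul_one]

/-- the powers of a block diagonal element have an exponential expansion -/
lemma expSum_pow (hl : l ∈ c.L) :
    ExpSum (c.iso (l : Op N)) (fun n => (l : Op N) ^ n) := by
  refine ExpSum.of_index Finset.univ (fun i => c.tau (l : Op N) i) (fun i x => x * c.P i)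
    (fun i => continuous_id.mul continuous_const) fun n => ?_
  rw [c.grading.mul_sum ((l : Op N) ^ n)]
  exact Finset.sum_congr rfl fun i _ => c.pow_mul_P hl.2 n i

lemma expSum_inv_pow (hl : l ∈ c.L) :
    ExpSum (c.iso (l : Op N)) (fun n => ((l⁻¹ : (Op N)ˣ) : Op N) ^ n) := by
  refine ExpSum.of_index Finset.univ (fun i => c.tau ((l⁻¹ : (Op N)ˣ) : Op N) i)
    (fun i x => star x * c.P i)
    (fun i => continuous_star.mul continuous_const) fun n => ?_
  rw [c.grading.mul_sum (((l⁻¹ : (Op N)ˣ) : Op N) ^ n)]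
  refine Finset.sum_congr rfl fun i _ => ?_
  rw [c.pow_mul_P (c.L.inv_mem hl).2 n i, c.iso_inv hl, star_pow]

end Cell

end Pool.Agent.Lib.MP_d9b062_al
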