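import Pool.Agent.Lib.MP_d9b062_al_h94.Rel3

/-!
# There is no linear relation between the invariants

(Task NOREL of the `MP_d9b062_al` project.)
-/

set_option linter.unusedSectionVars false

namespace Pool.Agent.Lib.MP_d9b062_al

open Filter Asymptotics
open scoped Topology

namespace Cell

variable {N : ℕ} {G : Subgroup (Op N)ˣ} {ι : Type} [Fintype ι] [LinearOrder ι] {c : Cell G ι}

lemma isPolyMap_star : IsPolyMap (fun T : Op N => star T) := by
  have := IsPolyMap.linear ((starL' ℝ : Op N ≃L[ℝ] Op N) : Op N →ₗ[ℝ] Op N)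
  exact this

lemma inner_PL {e : V N} (he : e ∈ c.EL) (v : V N) : inner ℝ (c.PL v) e = inner ℝ v e := by
  rw [inner_star, c.PL_star, c.PL_of_mem he]

/-- density in the coordinates of a frame -/
lemma Good.conj_dense {Γ : Subgroup (Aff (V N))} (hΓ : c.Good Γ) {F : Aff (V N)}
    (hF : F.lin ∈ G) {p : Op N → ℝ} (hp : p ∈ PolyFun (Op N))
    (h : ∀ η : Aff (V N), F * η * F⁻¹ ∈ Γ → p (η.lin : Op N) = 0) :
    ∀ g ∈ G, p (g : Op N) = 0 := by
  have h1 : (fun T : Op N => p (((F.lin⁻¹ : (Op N)ˣ) : Op N) * T * (F.lin : Op N))) ∈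
      PolyFun (Op N) :=
    PolyFun.comp hp (((IsPolyMap.const _).mul IsPolyMap.id).mul (IsPolyMap.const _))
  have h2 := hΓ.dense _ h1 (by
    rintro s ⟨γ, hγ, rfl⟩
    have h3 := h (F⁻¹ * γ * F) (by
      have : F * (F⁻¹ * γ * F) * F⁻¹ = γ := by group
      rw [this]
      exact hγ)
    have h4 : (((F⁻¹ * γ * F).lin : (Op N)ˣ) : Op N) =
        ((F.lin⁻¹ : (Op N)ˣ) : Op N) * (γ.lin : Op N) * (F.lin : Op N) := by
      rw [Aff.mul_lin, Aff.mul_lin, Aff.inv_lin, Units.val_mul, Units.val_mul]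
    rw [h4] at h3
    exact h3)
  intro g hg
  have h3 := h2 (F.lin * g * F.lin⁻¹) (G.mul_mem (G.mul_mem hF hg) (G.inv_mem hF))
  have h4 : ((F.lin⁻¹ : (Op N)ˣ) : Op N) * ((F.lin * g * F.lin⁻¹ : (Op N)ˣ) : Op N) *
      (F.lin : Op N) = (g : Op N) := by
    rw [← Units.val_mul, ← Units.val_mul]
    congr 1
    group
  simp only [h4] at h3
  exact h3

theorem Good.no_rel {Γ : Subgroup (Aff (V N))} (hΓ : c.Good Γ) {e : V N}
    (he : e ∈ c.EL) (φ : (ι → ℝ) →ₗ[ℝ] ℝ)
    (h : ∀ γ ∈ Γ, ∀ F l t, c.ALox γ F l t → inner ℝ (c.PL t) e = φ (c.tau (l : Op N))) :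
    e = 0 := by
  obtain ⟨γ₀, hγ₀, F, l, t, hlox⟩ := hΓ.exists_alox
  obtain ⟨D, hD, Q, hQ, hD1, hDreg, -, hyL⟩ := exists_rat c.grading c.star_P
  have hDne : ¬ ∀ g ∈ G, D (g : Op N) = 0 := by
    intro hcon
    have := hcon 1 G.one_mem
    rw [Units.val_one, hD1] at this
    exact one_ne_zero this
  -- density in the second variable
  have stepA : ∀ η₁ : Aff (V N), F * η₁ * F⁻¹ ∈ Γ → Reg c.P (η₁.lin : Op N) → ∀ g ∈ G,
      c.Psi D Q t e (xU c.P (η₁.lin : Op N)) (g : Op N) = 0 := by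
    intro η₁ hη₁ hr₁
    have hPsi : (fun g : Op N => c.Psi D Q t e (xU c.P (η₁.lin : Op N)) g) ∈ PolyFun (Op N) :=
      polyFun_Psi hD hQ t e (IsPolyMap.const _) IsPolyMap.id
    have h1 := hΓ.conj_dense hlox.F_mem (PolyFun.mul hD hPsi) (by
      intro η₂ hη₂
      by_cases hz : D (η₂.lin : Op N) = 0
      · exact mul_eq_zero_of_left hz _
      · exact mul_eq_zero_of_right _ (hΓ.Psi_eq_zero φ h hγ₀ hlox hη₁ hη₂ hD hQ hDreg hyL hr₁
          ((hDreg _).2 hz)))
    rcases c.zirr _ hD _ hPsi h1 with h2 | h2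
    · exact absurd h2 hDne
    · exact h2
  -- density in the first variable
  have hself : ∀ x ∈ c.Np, Reg c.P (x : Op N) ∧ xU c.P (x : Op N) = x := by
    intro x hx
    obtain ⟨h1, -, -, h2⟩ := c.LU_val c.Nm.one_mem c.L.one_mem hx
    rw [one_mul, one_mul] at h1 h2
    exact ⟨h1, h2⟩
  have stepB : ∀ x ∈ c.Np, ∀ g ∈ G, c.Psi D Q t e (x : Op N) (g : Op N) = 0 := by
    intro x hx g hg
    have hFg : (fun S : Op N => c.Psi D Q t e (star S) (g : Op N)) ∈ PolyFun (Op N) :=
      polyFun_Psi hD hQ t e isPolyMap_star (IsPolyMap.const _)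
    obtain ⟨k, F₁, hF₁, hF₁'⟩ := PolyFun.comp_rat hFg hD hQ
    have hp : (fun T : Op N => D (star T) * F₁ (star T)) ∈ PolyFun (Op N) :=
      PolyFun.mul (PolyFun.comp hD isPolyMap_star) (PolyFun.comp hF₁ isPolyMap_star)
    have h1 := hΓ.conj_dense hlox.F_mem hp (by
      intro η₁ hη₁
      by_cases hz : D (star (η₁.lin : Op N)) = 0
      · exact mul_eq_zero_of_left hz _
      · have hr := (hDreg _).2 hz
        have hr' : Reg c.P (η₁.lin : Op N) := by
          have := hr.star c.star_P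
          rwa [star_star] at this
        refine mul_eq_zero_of_right _ ?_
        rw [hF₁' _ hz, ← hyL _ hr]
        exact mul_eq_zero_of_right _ (stepA η₁ hη₁ hr' g hg))
    have h2 := h1 x hx.1
    obtain ⟨hrx, hxx⟩ := hself x hx
    have hrx' := hrx.star c.star_P
    have hz := (hDreg _).1 hrx'
    have h3 := (mul_eq_zero.1 h2).resolve_left hz
    rw [hF₁' _ hz, ← hyL _ hrx'] at h3
    have h4 := (mul_eq_zero.1 h3).resolve_left (pow_ne_zero _ hz)
    have h5 : star (yL c.P (star (x : Op N))) = x := hxx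
    rw [h5] at h4
    exact h4
  have stepC : ∀ y ∈ c.Nm, ∀ x ∈ c.Np,
      inner ℝ (c.PL (((y⁻¹ : (Op N)ˣ) : Op N) ((x : Op N) t))) e = inner ℝ (c.PL t) e := by
    intro y hy x hx
    obtain ⟨h1, h2, -, -⟩ := c.LU_val hy c.L.one_mem c.Np.one_mem
    rw [mul_one, mul_one] at h1 h2
    have h3 := stepB x hx (x⁻¹ * y) (G.mul_mem (G.inv_mem hx.1) hy.1)
    have h4 : (x : Op N) * ((x⁻¹ * y : (Op N)ˣ) : Op N) = (y : Op N) := by
      rw [← Units.val_mul]
      congr 1
      group
    have h5 : Reg c.P ((x : Op N) * ((x⁻¹ * y : (Op N)ˣ) : Op N)) := by rw [h4]; exact h1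
    rw [Psi_of_reg hDreg hyL t e h5, h4, h2, Ring.inverse_unit] at h3
    have h6 := (mul_eq_zero.1 h3).resolve_left (pow_ne_zero _ ((hDreg _).1 h1))
    exact sub_eq_zero.1 h6
  have stepD : ∀ g ∈ G, Reg c.P (g : Op N) →
      inner ℝ (c.PL ((g : Op N) t)) e = inner ℝ (c.PL t) e := by
    intro g hg hr
    obtain ⟨y, hy, d, hd, x, hx, hfac, -, -, -⟩ := c.exists_LU hg hr
    have hy' : (d⁻¹ * y * d)⁻¹ ∈ c.Nm := by
      refine c.Nm.inv_mem ⟨G.mul_mem (G.mul_mem (G.inv_mem hd.1) hy.1) hd.1, ?_⟩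
      have := hy.2.conj (l := d⁻¹) hd.2.inv
      rw [Units.val_mul, Units.val_mul]
      rw [inv_inv] at this
      exact this
    have h1 := stepC _ hy' x hx
    rw [inv_inv] at h1
    rw [← h1]
    have h2 : g = d * (d⁻¹ * y * d * x) := by rw [hfac]; group
    have h3 : (g : Op N) t = (d : Op N) (((d⁻¹ * y * d : (Op N)ˣ) : Op N) ((x : Op N) t)) := by
      rw [h2, Units.val_mul, Units.val_mul (d⁻¹ * y * d) x]
      rfl
    have h4 : ∀ v : V N, c.PL ((d : Op N) v) = c.PL v := fun v =>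
      congrArg (fun T : Op N => T v) (c.PL_mul_l hd)
    rw [h3, h4]
  have stepE : ∀ g ∈ G, inner ℝ ((g : Op N) t) e = inner ℝ t e := by
    have hp : (fun T : Op N => inner ℝ (T t) e - inner ℝ t e) ∈ PolyFun (Op N) := by
      refine PolyFun.sub ?_ (PolyFun.const _)
      have h1 : IsPolyMap (fun T : Op N => T t) :=
        IsPolyMap.apply IsPolyMap.id (IsPolyMap.const t)
      have h2 := h1 ((innerSL ℝ e : V N →L[ℝ] ℝ) : V N →ₗ[ℝ] ℝ)
      refine (congrArg (· ∈ PolyFun (Op N)) (funext fun T => ?_)).mp h2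
      change inner ℝ e (T t) = inner ℝ (T t) e
      exact real_inner_comm _ _
    have h1 : ∀ g ∈ G, D (g : Op N) * (inner ℝ ((g : Op N) t) e - inner ℝ t e) = 0 := by
      intro g hg
      by_cases hz : D (g : Op N) = 0
      · exact mul_eq_zero_of_left hz _
      · refine mul_eq_zero_of_right _ (sub_eq_zero.2 ?_)
        have := stepD g hg ((hDreg _).2 hz)
        rwa [inner_PL he, inner_PL he] at this
    rcases c.zirr _ hD _ hp h1 with h2 | h2
    · exact absurd h2 hDne
    · intro g hg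
      exact sub_eq_zero.1 (h2 g hg)
  -- irreducibility
  let W : Submodule ℝ (V N) :=
    { carrier := {v | ∀ g ∈ G, inner ℝ ((g : Op N) v) e = (0 : ℝ)}
      add_mem' := fun {v w} hv hw g hg => by
        rw [map_add, inner_add_left, hv g hg, hw g hg, add_zero]
      zero_mem' := fun g _ => by rw [map_zero, inner_zero_left]
      smul_mem' := fun a v hv g hg => by
        rw [map_smul, inner_smul_left, hv g hg, mul_zero] }
  have hW : ∀ g ∈ G, ∀ v ∈ W, (g : Op N) v ∈ W := by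
    intro g hg v hv g' hg'
    have := hv (g' * g) (G.mul_mem hg' hg)
    rw [Units.val_mul] at this
    exact this
  rcases c.irr W hW with hbot | htop
  · exfalso
    have hfix : ∀ g ∈ G, (g : Op N) t = t := by
      intro g hg
      have hmem : (g : Op N) t - t ∈ W := by
        intro g' hg'
        have h1 := stepE (g' * g) (G.mul_mem hg' hg)
        rw [Units.val_mul] at h1
        have h2 := stepE g' hg'
        rw [map_sub, inner_sub_left, h2]
        exact sub_eq_zero.2 h1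
      rw [hbot, Submodule.mem_bot] at hmem
      exact sub_eq_zero.1 hmem
    have hspan : ∀ g ∈ G, ∀ v ∈ Submodule.span ℝ {t}, (g : Op N) v ∈ Submodule.span ℝ {t} := by
      intro g hg v hv
      obtain ⟨a, rfl⟩ := Submodule.mem_span_singleton.1 hv
      rw [map_smul, hfix g hg]
      exact Submodule.smul_mem _ _ (Submodule.mem_span_singleton_self t)
    have ht0 : t ≠ 0 := hΓ.nofix γ₀ hγ₀ F l t hlox
    rcases c.irr _ hspan with h1 | h1
    · exact ht0 (Submodule.span_singleton_eq_bot.1 h1)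
    · obtain ⟨i, hi⟩ := c.exists_ne
      apply c.P_ne i hi
      refine ContinuousLinearMap.ext fun v => ?_
      have hv : v ∈ Submodule.span ℝ {t} := by rw [h1]; exact Submodule.mem_top
      obtain ⟨a, rfl⟩ := Submodule.mem_span_singleton.1 hv
      have h2 : c.P i t = 0 := by
        have h3 : c.P i (c.P c.o t) = 0 :=
          congrArg (fun T : Op N => T t) (c.grading.orth i c.o hi)
        rwa [hlox.P_t] at h3
      rw [map_smul, h2, smul_zero]
      rfl
  · have h1 : e ∈ W := by rw [htop]; exact Submodule.mem_top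
    have h2 := h1 1 G.one_mem
    rw [Units.val_one] at h2
    exact inner_self_eq_zero.1 h2

end Cell

end Pool.Agent.Lib.MP_d9b062_al
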