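import Pool.Agent.Lib.MP_d9b062_al_h94.Iso
import Pool.Agent.Lib.MP_d9b062_al_h75.First
import Pool.Agent.Lib.MP_d9b062_al_h67.Rat

/-!
# A linear relation between the invariants, first consequences

(Part of task NOREL of the `MP_d9b062_al` project.)
-/

set_option linter.unusedSectionVars false

namespace Pool.Agent.Lib.MP_d9b062_al

open Filter Asymptotics
open scoped Topology

namespace Cell

variable {N : ℕ} {G : Subgroup (Op N)ˣ} {ι : Type} [Fintype ι] [LinearOrder ι] {c : Cell G ι}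

lemma aff_pow {l : (Op N)ˣ} {t : V N} (ht : (l : Op N) t = t) (n : ℕ) :
    (⟨l, t⟩ : Aff (V N)) ^ n = ⟨l ^ n, (n : ℝ) • t⟩ := by
  induction n with
  | zero =>
    rw [pow_zero, pow_zero]
    ext1
    · rfl
    · simp
  | succ n ih =>
    rw [pow_succ', ih]
    ext1
    · rw [Aff.mul_lin, pow_succ']
    · rw [Aff.mul_tr]
      change t + (l : Op N) ((n : ℝ) • t) = ((n + 1 : ℕ) : ℝ) • t
      rw [map_smul, ht]
      push_cast
      rw [add_smul, one_smul, add_comm]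

lemma conj_lin_mem {Γ : Subgroup (Aff (V N))} (hΓ : c.Good Γ) {F η : Aff (V N)}
    (hF : F.lin ∈ G) (hη : F * η * F⁻¹ ∈ Γ) : η.lin ∈ G := by
  have h := hΓ.lin_mem _ hη
  have h1 : η.lin = F.lin⁻¹ * (F * η * F⁻¹).lin * F.lin := by
    rw [Aff.mul_lin, Aff.mul_lin, Aff.inv_lin]
    group
  rw [h1]
  exact G.mul_mem (G.mul_mem (G.inv_mem hF) h) hF

/-- the linear relation for a regular element, in the coordinates of a loxodromic element -/
theorem Good.rel_of_reg {Γ : Subgroup (Aff (V N))} (hΓ : c.Good Γ) {e : V N}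
    (φ : (ι → ℝ) →ₗ[ℝ] ℝ)
    (h : ∀ γ ∈ Γ, ∀ F l t, c.ALox γ F l t → inner ℝ (c.PL t) e = φ (c.tau (l : Op N)))
    {γ₀ F : Aff (V N)} {l : (Op N)ˣ} {t : V N} (hγ₀ : γ₀ ∈ Γ) (hlox : c.ALox γ₀ F l t)
    {η : Aff (V N)} (hη : F * η * F⁻¹ ∈ Γ) (hreg : Reg c.P (η.lin : Op N)) :
    inner ℝ (c.PL (Ring.inverse (yL c.P (η.lin : Op N)) η.tr)) e =
      φ (c.tau (dD c.P (η.lin : Op N))) := by
  have hηG := conj_lin_mem hΓ hlox.F_mem hη
  obtain ⟨f, l', hlin, htau, hT⟩ := c.one_block hlox.l_mem hlox.dom hlox.P_t hlox.l_t hηG hreg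
    η.tr
  -- the elements `l' n` are `V`-regular for large `n`
  have hvreg : ∀ᶠ n in atTop, c.VReg (l' n : Op N) := by
    have h1 : ∀ i : ι, i ≠ c.o → ∀ᶠ n in atTop, c.tau (l' n : Op N) i ≠ 0 := by
      intro i hi
      have hne := hlox.vreg i hi
      have h2 : Tendsto (fun n : ℕ => c.tau (l' n : Op N) i - (n : ℝ) * c.tau (l : Op N) i) atTop
          (𝓝 (c.tau (dD c.P (η.lin : Op N)) i)) := by
        have := ((continuous_apply i).tendsto _).comp htau
        exact this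
      have h3 : ∀ᶠ n : ℕ in atTop,
          |c.tau (l' n : Op N) i - (n : ℝ) * c.tau (l : Op N) i| <
            |c.tau (dD c.P (η.lin : Op N)) i| + 1 :=
        h2.abs.eventually (gt_mem_nhds (lt_add_one _))
      have h4 : ∀ᶠ n : ℕ in atTop, |c.tau (dD c.P (η.lin : Op N)) i| + 1 <
          (n : ℝ) * |c.tau (l : Op N) i| :=
        (tendsto_natCast_atTop_atTop.atTop_mul_const (abs_pos.2 hne)).eventually_gt_atTop _
      filter_upwards [h3, h4] with n h3 h4 h5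
      rw [h5, zero_sub, abs_neg, abs_mul, Nat.abs_cast] at h3
      linarith
    have h2 : ∀ᶠ n in atTop, ∀ i : ι, i ≠ c.o → c.tau (l' n : Op N) i ≠ 0 := by
      rw [eventually_all]
      intro i
      by_cases hi : i = c.o
      · exact Eventually.of_forall fun n hi' => absurd hi hi'
      · filter_upwards [h1 i hi] with n hn _
        exact hn
    exact h2
  -- the relation for `γ₀ ^ n * η`
  have hrel : ∀ᶠ n : ℕ in atTop,
      inner ℝ (c.T (f n) ((⟨l ^ n, (n : ℝ) • t⟩ : Aff (V N)) * ⟨η.lin, η.tr⟩)) e =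
        φ (c.tau (l' n : Op N)) := by
    filter_upwards [hlin, hvreg] with n hn hv
    set γ' : Aff (V N) := (⟨l ^ n, (n : ℝ) • t⟩ : Aff (V N)) * ⟨η.lin, η.tr⟩ with hγ'
    have hn' : c.LinLox γ'.lin (f n) (l' n) := hn
    obtain ⟨F', t', hF', hA⟩ := c.exists_alox hn' hv
    have hT' := c.T_eq hA
    rw [hF'] at hT'
    rw [hT']
    have hmem : F * γ' * F⁻¹ ∈ Γ := by
      have h1 : F * γ' * F⁻¹ = γ₀ ^ n * (F * η * F⁻¹) := by
        have h2 : γ₀ ^ n = F * (⟨l ^ n, (n : ℝ) • t⟩ : Aff (V N)) * F⁻¹ := by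
          rw [← aff_pow hlox.l_t, hlox.eq, conj_pow]
        rw [h2, hγ']
        group
      rw [h1]
      exact Γ.mul_mem (Γ.pow_mem hγ₀ n) hη
    refine h _ hmem (F * F') (l' n) t' ⟨?_, hA.l_mem, hA.dom, hA.vreg, hA.P_t, hA.l_t, ?_⟩
    · rw [Aff.mul_lin]
      exact G.mul_mem hlox.F_mem hA.F_mem
    · rw [hA.eq]
      group
  have h0 := h γ₀ hγ₀ F l t hlox
  have hL : Tendsto (fun n : ℕ => inner ℝ (c.T (f n) ((⟨l ^ n, (n : ℝ) • t⟩ : Aff (V N)) *
      ⟨η.lin, η.tr⟩) - (n : ℝ) • c.PL t) e) atTop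
      (𝓝 (inner ℝ (c.PL (Ring.inverse (yL c.P (η.lin : Op N)) η.tr)) e)) :=
    hT.inner tendsto_const_nhds
  have hφ : Continuous φ := φ.continuous_of_finiteDimensional
  have hR : Tendsto (fun n : ℕ => φ (c.tau (l' n : Op N) - (n : ℝ) • c.tau (l : Op N))) atTop
      (𝓝 (φ (c.tau (dD c.P (η.lin : Op N))))) := (hφ.tendsto _).comp htau
  refine tendsto_nhds_unique hL (hR.congr' ?_)
  filter_upwards [hrel] with n hn
  rw [inner_sub_left, hn, inner_smul_left, h0, map_sub, map_smul, smul_eq_mul]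
  simp

end Cell

end Pool.Agent.Lib.MP_d9b062_al
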