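import Pool.Agent.Lib.MP_d9b062_al_h94.Rel1

/-!
# A linear relation between the invariants: the asymptotic argument

(Part of task NOREL of the `MP_d9b062_al` project.)
-/

set_option linter.unusedSectionVars false

namespace Pool.Agent.Lib.MP_d9b062_al

open Filter Asymptotics
open scoped Topology

section Poly

variable {N : ℕ}

/-- `D ^ K` times the inverse of `D⁻¹ • Q`, for `D⁻¹ • Q` unipotent -/
noncomputable def yInv (K : ℕ) (D : Op N → ℝ) (Q : Op N → Op N) (T : Op N) : Op N :=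
  ∑ k ∈ Finset.range (K + 1), D T ^ (K - k) • (D T • (1 : Op N) - Q T) ^ k

lemma isPolyMap_yInv (K : ℕ) {D : Op N → ℝ} {Q : Op N → Op N} (hD : D ∈ PolyFun (Op N))
    (hQ : IsPolyMap Q) : IsPolyMap (yInv K D Q) := by
  unfold yInv
  refine IsPolyMap.sum _ fun k _ => IsPolyMap.smul (PolyFun.pow hD (K - k)) ?_
  exact IsPolyMap.pow (IsPolyMap.sub (IsPolyMap.smul hD (IsPolyMap.const 1)) hQ) k

lemma yInv_eq {ι : Type} [Fintype ι] [LinearOrder ι] {P : ι → Op N} (hP : IsGrading P)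
    {D : Op N → ℝ} {Q : Op N → Op N} (hDreg : ∀ T, Reg P T ↔ D T ≠ 0)
    (hyL : ∀ T, Reg P T → yL P T = (D T)⁻¹ • Q T) {T : Op N} (h : Reg P T) :
    yInv (Fintype.card ι) D Q T = D T ^ (Fintype.card ι) • Ring.inverse (yL P T) := by
  have hD := (hDreg T).1 h
  rw [(yL_unip hP h).inverse_eq hP lt_trans' (fun i => lt_irrefl i), unipInv, Finset.smul_sum,
    yInv]
  refine Finset.sum_congr rfl fun k hk => ?_
  have hk' : k ≤ Fintype.card ι := Nat.lt_succ_iff.1 (Finset.mem_range.1 hk)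
  have h1 : (1 : Op N) - yL P T = (D T)⁻¹ • (D T • (1 : Op N) - Q T) := by
    rw [hyL T h, smul_sub, smul_smul, inv_mul_cancel₀ hD, one_smul]
  rw [h1, smul_pow, smul_smul]
  congr 1
  rw [inv_pow, ← div_eq_mul_inv, eq_div_iff (pow_ne_zero _ hD), ← pow_add,
    Nat.sub_add_cancel hk']

end Poly

section Asy

variable {E : Type*} [NormedAddCommGroup E] [InnerProductSpace ℝ E] [CompleteSpace E]
  [FiniteDimensional ℝ E] {m : E →L[ℝ] E} {N : ℕ}

lemma Asy.apply (hm : Star.star m * m = 1) {f : ℕ → Op N} {g : ℕ → V N} (hf : Asy m f)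
    (hg : Asy m g) : Asy m (fun n => f n (g n)) :=
  Asy.bilin hm (ContinuousLinearMap.id ℝ (V N →L[ℝ] V N)) hf hg

lemma Asy.inner (hm : Star.star m * m = 1) {f g : ℕ → V N} (hf : Asy m f)
    (hg : Asy m g) : Asy m (fun n => Inner.inner ℝ (f n) (g n)) :=
  Asy.bilin hm (innerSL ℝ) hf hg

end Asy

namespace Cell

variable {N : ℕ} {G : Subgroup (Op N)ˣ} {ι : Type} [Fintype ι] [LinearOrder ι] {c : Cell G ι}

lemma exists_unit_vec {i : ι} (hi : c.P i ≠ 0) : ∃ v : V N, c.P i v = v ∧ ‖v‖ = 1 := by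
  have h : ∃ v, c.P i v ≠ 0 := by
    by_contra hcon
    push Not at hcon
    exact hi (ContinuousLinearMap.ext hcon)
  obtain ⟨v, hv⟩ := h
  have hidem : ∀ w, c.P i (c.P i w) = c.P i w := fun w =>
    congrArg (fun T : Op N => T w) (c.grading.idem i)
  refine ⟨‖c.P i v‖⁻¹ • c.P i v, ?_, ?_⟩
  · rw [map_smul, hidem]
  · rw [norm_smul, norm_inv, norm_norm, inv_mul_cancel₀ (norm_ne_zero_iff.2 hv)]

lemma tau_eq_log {l : (Op N)ˣ} (hl : l ∈ c.L) {i : ι} {v : V N} (hv : c.P i v = v)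
    (hv1 : ‖v‖ = 1) :
    c.tau (l : Op N) i = (1 / 2) * Real.log |inner ℝ ((l : Op N) v) ((l : Op N) v)| := by
  have h1 := c.tau_spec hl i v
  rw [hv, hv1, mul_one] at h1
  rw [real_inner_self_eq_norm_sq, h1, ← Real.exp_nat_mul, abs_of_pos (Real.exp_pos _),
    Real.log_exp]
  push_cast
  ring

variable {m : V N →L[ℝ] V N}

/-- expansion of the weights of the diagonal part -/
lemma tau_asy (hm : star m * m = 1) {T : ℕ → (Op N)ˣ} (hT : ∀ n, T n ∈ G)
    (hA : Asy m (fun n => (T n : Op N))) {h₂ : (Op N)ˣ} (hh₂ : h₂ ∈ G)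
    (hr : Reg c.P (h₂ : Op N)) {a : ℝ} (ha : a < 0)
    (hlim : (fun n => (T n : Op N) - h₂) =O[atTop] fun n : ℕ => Real.exp (a * n)) (i : ι) :
    Asy m (fun n => c.tau (dD c.P (T n : Op N)) i) := by
  by_cases hi : c.P i = 0
  · refine (Asy.const (0 : ℝ)).congr' (Eventually.of_forall fun n => ?_)
    rw [tau, if_pos hi]
  obtain ⟨v, hv, hv1⟩ := exists_unit_vec hi
  have hd : Asy m (fun n => dD c.P (T n : Op N) v) :=
    Asy.apply hm (Asy.dD hm c.grading c.star_P hA hr ha hlim) (Asy.const v)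
  have hs := Asy.inner hm hd hd
  obtain ⟨K, hK, δ, hδ, hLip⟩ := exists_lipschitz c.grading c.star_P hr
  have htend := tendsto_of_isBigO_exp ha hlim
  have hclose : ∀ᶠ n in atTop, ‖(T n : Op N) - h₂‖ < δ := by
    have h1 : Tendsto (fun n => ‖(T n : Op N) - h₂‖) atTop (𝓝 0) := by
      have := (htend.sub_const (h₂ : Op N)).norm
      simpa using this
    exact h1.eventually (gt_mem_nhds hδ)
  have hdlim : (fun n => dD c.P (T n : Op N) v - dD c.P (h₂ : Op N) v) =O[atTop]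
      fun n : ℕ => Real.exp (a * n) := by
    refine IsBigO.trans (g := fun n => (T n : Op N) - h₂) ?_ hlim
    refine IsBigO.of_bound K ?_
    filter_upwards [hclose] with n hn
    have h1 := (hLip (T n) h₂ hn (by simpa using hδ)).2.2.2
    calc ‖dD c.P (T n : Op N) v - dD c.P (h₂ : Op N) v‖
        = ‖(dD c.P (T n : Op N) - dD c.P (h₂ : Op N)) v‖ := rfl
      _ ≤ ‖dD c.P (T n : Op N) - dD c.P (h₂ : Op N)‖ * ‖v‖ := ContinuousLinearMap.le_opNorm _ _
      _ ≤ K * ‖(T n : Op N) - h₂‖ := by rw [hv1, mul_one]; exact h1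
  obtain ⟨y, hy, d, hd', x, hx, -, -, hdd, -⟩ := c.exists_LU hh₂ hr
  have hne : inner ℝ (dD c.P (h₂ : Op N) v) (dD c.P (h₂ : Op N) v) ≠ (0 : ℝ) := by
    rw [← hdd, real_inner_self_eq_norm_sq]
    have h1 := c.tau_spec hd' i v
    rw [hv, hv1, mul_one] at h1
    rw [h1]
    positivity
  have hslim : (fun n => inner ℝ (dD c.P (T n : Op N) v) (dD c.P (T n : Op N) v) -
      inner ℝ (dD c.P (h₂ : Op N) v) (dD c.P (h₂ : Op N) v)) =O[atTop]
      fun n : ℕ => Real.exp (a * n) := by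
    have hb : (fun n => dD c.P (T n : Op N) v) =O[atTop] fun _ : ℕ => (1 : ℝ) :=
      (tendsto_of_isBigO_exp ha hdlim).isBigO_one ℝ
    have hb' : (fun _ : ℕ => dD c.P (h₂ : Op N) v) =O[atTop] fun _ : ℕ => (1 : ℝ) :=
      isBigO_const_one ℝ _ _
    have key : ∀ {f g : ℕ → V N} {f' g' : ℕ → ℝ}, f =O[atTop] f' → g =O[atTop] g' →
        (fun n => inner ℝ (f n) (g n)) =O[atTop] fun n => f' n * g' n := by
      intro f g f' g' hf hg
      refine IsBigO.trans ?_ (hf.norm_left.mul hg.norm_left)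
      refine IsBigO.of_bound 1 (Eventually.of_forall fun n => ?_)
      rw [one_mul, norm_mul, norm_norm, norm_norm]
      exact norm_inner_le_norm _ _
    have h1 := (key hdlim hb).add (key hb' hdlim |>.congr_right fun n => mul_comm _ _)
    refine (h1.congr_left fun n => ?_).congr_right fun n => by rw [mul_one]
    rw [inner_sub_left, inner_sub_right]
    ring
  have hlog := Asy.log hm hs hne ha hslim
  refine ((Asy.const (1 / 2 : ℝ)).mul hm hlog).congr' ?_
  filter_upwards [eventually_reg hr htend] with n hn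
  obtain ⟨y', hy', d', hd'', x', hx', -, -, hdd', -⟩ := c.exists_LU (hT n) hn
  rw [← hdd', tau_eq_log hd'' hv hv1]

lemma phi_tau_asy (hm : star m * m = 1) (φ : (ι → ℝ) →ₗ[ℝ] ℝ) {T : ℕ → (Op N)ˣ}
    (hT : ∀ n, T n ∈ G)
    (hA : Asy m (fun n => (T n : Op N))) {h₂ : (Op N)ˣ} (hh₂ : h₂ ∈ G)
    (hr : Reg c.P (h₂ : Op N)) {a : ℝ} (ha : a < 0)
    (hlim : (fun n => (T n : Op N) - h₂) =O[atTop] fun n : ℕ => Real.exp (a * n)) :
    Asy m (fun n => φ (c.tau (dD c.P (T n : Op N)))) := by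
  have h1 : ∀ X : ι → ℝ, φ X = ∑ i, X i * φ (fun j => if i = j then 1 else 0) := by
    intro X
    rw [LinearMap.pi_apply_eq_sum_univ φ X]
    rfl
  have h2 : (fun n => φ (c.tau (dD c.P (T n : Op N)))) = fun n =>
      ∑ i, c.tau (dD c.P (T n : Op N)) i * φ (fun j => if i = j then 1 else 0) :=
    funext fun n => h1 _
  rw [h2]
  exact Asy.sum _ fun i _ => (tau_asy hm hT hA hh₂ hr ha hlim i).mul_const hm _

end Cell

end Pool.Agent.Lib.MP_d9b062_al
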