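import Pool.Agent.Lib.MP_d9b062_al_h94.Rel2

/-!
# A linear relation between the invariants: the polynomial identity

(Part of task NOREL of the `MP_d9b062_al` project.)
-/

set_option linter.unusedSectionVars false

namespace Pool.Agent.Lib.MP_d9b062_al

open Filter Asymptotics
open scoped Topology

namespace Cell

variable {N : ℕ} {G : Subgroup (Op N)ˣ} {ι : Type} [Fintype ι] [LinearOrder ι] {c : Cell G ι}

/-- `u_n = l⁻ⁿ x lⁿ` -/
noncomputable def un (l x : (Op N)ˣ) (n : ℕ) : (Op N)ˣ := (l ^ n)⁻¹ * x * l ^ n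

lemma un_val (l x : (Op N)ˣ) (n : ℕ) :
    (un l x n : Op N) = ((l⁻¹ : (Op N)ˣ) : Op N) ^ n * x * (l : Op N) ^ n := by
  rw [un, Units.val_mul, Units.val_mul, ← inv_pow, Units.val_pow_eq_pow_val,
    Units.val_pow_eq_pow_val]

lemma un_zero (l x : (Op N)ˣ) : un l x 0 = x := by
  rw [un, pow_zero, inv_one, one_mul, mul_one]

lemma un_mem {l x : (Op N)ˣ} (hl : l ∈ c.L) (hx : x ∈ c.Np) (n : ℕ) : un l x n ∈ G :=
  G.mul_mem (G.mul_mem (G.inv_mem (G.pow_mem hl.1 n)) hx.1) (G.pow_mem hl.1 n)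

lemma expSum_un {l : (Op N)ˣ} (hl : l ∈ c.L) (x : (Op N)ˣ) :
    ExpSum (c.iso (l : Op N)) (fun n => (un l x n : Op N)) := by
  simp only [un_val]
  exact ((c.expSum_inv_pow hl).mul (ExpSum.const _)).mul (c.expSum_pow hl)

lemma isBigO_un {l x : (Op N)ˣ} (hl : l ∈ c.L) (hd : c.Dom (l : Op N)) (hx : x ∈ c.Np) :
    ∃ a < 0, (fun n : ℕ => (un l x n : Op N) - 1) =O[atTop] fun n : ℕ => Real.exp (a * n) := by
  obtain ⟨C, hC, a, ha, hk⟩ := c.kap_pow hl hd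
  refine ⟨-a, neg_neg_of_pos ha, IsBigO.of_bound (C * ‖(x : Op N) - 1‖)
    (Eventually.of_forall fun n => ?_)⟩
  have h1 := c.conj_Np (c.L.pow_mem hl n) hx.2
  have h2 := hk n
  rw [Real.norm_of_nonneg (Real.exp_pos _).le]
  have h3 : (un l x n : Op N) = (((l ^ n)⁻¹ : (Op N)ˣ) : Op N) * x * ((l ^ n : (Op N)ˣ) : Op N) := by
    rw [un, Units.val_mul, Units.val_mul]
  rw [h3]
  refine h1.trans ?_
  rw [Units.val_pow_eq_pow_val]
  calc c.kap ((l : Op N) ^ n) * ‖(x : Op N) - 1‖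
      ≤ (C * Real.exp (-a * n)) * ‖(x : Op N) - 1‖ :=
        mul_le_mul_of_nonneg_right h2 (norm_nonneg _)
    _ = C * ‖(x : Op N) - 1‖ * Real.exp (-a * n) := by ring

lemma l_pow_t {l : (Op N)ˣ} {t : V N} (ht : (l : Op N) t = t) (n : ℕ) :
    ((l ^ n : (Op N)ˣ) : Op N) t = t := by
  induction n with
  | zero => rw [pow_zero]; rfl
  | succ n ih =>
    rw [pow_succ, Units.val_mul]
    change ((l ^ n : (Op N)ˣ) : Op N) ((l : Op N) t) = t
    rw [ht, ih]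

/-- the exact identity for `η₁ γⁿ η₂` -/
theorem Good.rel_product {Γ : Subgroup (Aff (V N))} (hΓ : c.Good Γ) {e : V N}
    (φ : (ι → ℝ) →ₗ[ℝ] ℝ)
    (h : ∀ γ ∈ Γ, ∀ F l t, c.ALox γ F l t → inner ℝ (c.PL t) e = φ (c.tau (l : Op N)))
    {γ₀ F : Aff (V N)} {l : (Op N)ˣ} {t : V N} (hγ₀ : γ₀ ∈ Γ) (hlox : c.ALox γ₀ F l t)
    {η₁ η₂ : Aff (V N)} (hη₁ : F * η₁ * F⁻¹ ∈ Γ) (hη₂ : F * η₂ * F⁻¹ ∈ Γ)
    {y d x : (Op N)ˣ} (hy : y ∈ c.Nm) (hd : d ∈ c.L) (hx : x ∈ c.Np)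
    (h₁ : η₁.lin = y * d * x) (n : ℕ)
    (hreg : Reg c.P ((un l x n * η₂.lin : (Op N)ˣ) : Op N)) :
    (n : ℝ) * (inner ℝ (c.PL (Ring.inverse (yL c.P ((un l x n * η₂.lin : (Op N)ˣ) : Op N))
        ((un l x n : Op N) t))) e - inner ℝ (c.PL t) e) +
      (inner ℝ (c.PL (Ring.inverse (yL c.P ((un l x n * η₂.lin : (Op N)ˣ) : Op N))
        ((((l⁻¹ : (Op N)ˣ) : Op N) ^ n) (((d⁻¹ * y⁻¹ : (Op N)ˣ) : Op N) η₁.tr) +
          (un l x n : Op N) η₂.tr))) e - φ (c.tau (d : Op N)) -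
        φ (c.tau (dD c.P ((un l x n * η₂.lin : (Op N)ˣ) : Op N)))) = 0 := by
  have hη₂G := conj_lin_mem hΓ hlox.F_mem hη₂
  have hTG : un l x n * η₂.lin ∈ G := G.mul_mem (un_mem hlox.l_mem hx n) hη₂G
  obtain ⟨y', hy', d', hd', x', hx', hfac, hyL, hdD, -⟩ := c.exists_LU hTG hreg
  have hln : l ^ n ∈ c.L := c.L.pow_mem hlox.l_mem n
  have hdl : d * l ^ n ∈ c.L := c.L.mul_mem hd hln
  -- the product
  set η : Aff (V N) := η₁ * (⟨l ^ n, (n : ℝ) • t⟩ : Aff (V N)) * η₂ with hη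
  have hηΓ : F * η * F⁻¹ ∈ Γ := by
    have h1 : F * η * F⁻¹ = (F * η₁ * F⁻¹) * γ₀ ^ n * (F * η₂ * F⁻¹) := by
      have h2 : γ₀ ^ n = F * (⟨l ^ n, (n : ℝ) • t⟩ : Aff (V N)) * F⁻¹ := by
        rw [← aff_pow hlox.l_t, hlox.eq, conj_pow]
      rw [h2, hη]
      group
    rw [h1]
    exact Γ.mul_mem (Γ.mul_mem hη₁ (Γ.pow_mem hγ₀ n)) hη₂
  -- its factorization
  have hyc : (d * l ^ n) * y' * (d * l ^ n)⁻¹ ∈ c.Nm := by
    refine ⟨G.mul_mem (G.mul_mem hdl.1 hy'.1) (G.inv_mem hdl.1), ?_⟩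
    have := hy'.2.conj hdl.2
    rw [Units.val_mul, Units.val_mul]
    exact this
  have hlin : η.lin = (y * ((d * l ^ n) * y' * (d * l ^ n)⁻¹)) * (d * l ^ n * d') * x' := by
    have h1 : η.lin = y * d * x * l ^ n * η₂.lin := by
      rw [hη, Aff.mul_lin, Aff.mul_lin, h₁]
    have h2 : x * l ^ n * η₂.lin = l ^ n * (un l x n * η₂.lin) := by
      rw [un]
      group
    calc η.lin = y * d * (x * l ^ n * η₂.lin) := by rw [h1]; group
      _ = y * d * (l ^ n * (y' * d' * x')) := by rw [h2, hfac]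
      _ = _ := by group
  obtain ⟨hr, hyv, hdv, -⟩ := c.LU_val (c.Nm.mul_mem hy hyc) (c.L.mul_mem hdl hd') hx'
  rw [← hlin] at hr hyv hdv
  have hrel := hΓ.rel_of_reg φ h hγ₀ hlox hηΓ hr
  rw [hdv, hyv, Ring.inverse_unit] at hrel
  -- the weights
  have htau : c.tau ((d * l ^ n * d' : (Op N)ˣ) : Op N) =
      c.tau (d : Op N) + (n : ℝ) • c.tau (l : Op N) + c.tau (d' : Op N) := by
    rw [Units.val_mul, c.tau_mul hdl hd', Units.val_mul, c.tau_mul hd hln,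
      Units.val_pow_eq_pow_val, c.tau_pow hlox.l_mem]
  rw [htau, map_add, map_add, map_smul, smul_eq_mul, ← h γ₀ hγ₀ F l t hlox] at hrel
  -- the translation part
  have hPL : ∀ v : V N, c.PL (((d * l ^ n : (Op N)ˣ) : Op N) v) = c.PL v := by
    intro v
    have := congrArg (fun T : Op N => T v) (c.PL_mul_l hdl)
    exact this
  have htr : η.tr = η₁.tr + (η₁.lin : Op N) ((n : ℝ) • t) +
      ((η₁.lin * l ^ n : (Op N)ˣ) : Op N) η₂.tr := by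
    rw [hη]
    rfl
  have hA : (((y * ((d * l ^ n) * y' * (d * l ^ n)⁻¹))⁻¹ : (Op N)ˣ) : Op N) η.tr =
      ((d * l ^ n : (Op N)ˣ) : Op N) (((y'⁻¹ : (Op N)ˣ) : Op N)
        ((((l ^ n)⁻¹ * (d⁻¹ * y⁻¹) : (Op N)ˣ) : Op N) η.tr)) := by
    have h1 : (y * ((d * l ^ n) * y' * (d * l ^ n)⁻¹))⁻¹ =
        (d * l ^ n) * (y'⁻¹ * ((l ^ n)⁻¹ * (d⁻¹ * y⁻¹))) := by
      group
    rw [h1, Units.val_mul, Units.val_mul]
    rfl
  have hB : (((l ^ n)⁻¹ * (d⁻¹ * y⁻¹) : (Op N)ˣ) : Op N) η.tr =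
      (n : ℝ) • ((un l x n : Op N) t) + ((((l⁻¹ : (Op N)ˣ) : Op N) ^ n)
        (((d⁻¹ * y⁻¹ : (Op N)ˣ) : Op N) η₁.tr) + (un l x n : Op N) η₂.tr) := by
    have e1 : (((l ^ n)⁻¹ * (d⁻¹ * y⁻¹) : (Op N)ˣ) : Op N) η₁.tr =
        (((l⁻¹ : (Op N)ˣ) : Op N) ^ n) (((d⁻¹ * y⁻¹ : (Op N)ˣ) : Op N) η₁.tr) := by
      rw [Units.val_mul, ← inv_pow, Units.val_pow_eq_pow_val]
      rfl
    have e2 : (((l ^ n)⁻¹ * (d⁻¹ * y⁻¹) : (Op N)ˣ) : Op N) ((η₁.lin : Op N) ((n : ℝ) • t)) =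
        (n : ℝ) • ((un l x n : Op N) t) := by
      have h1 : (((l ^ n)⁻¹ * (d⁻¹ * y⁻¹) : (Op N)ˣ) : Op N) ((η₁.lin : Op N) ((n : ℝ) • t)) =
          (((l ^ n)⁻¹ * (d⁻¹ * y⁻¹) * η₁.lin : (Op N)ˣ) : Op N) ((n : ℝ) • t) := by
        rw [Units.val_mul ((l ^ n)⁻¹ * (d⁻¹ * y⁻¹))]
        rfl
      have h2 : (l ^ n)⁻¹ * (d⁻¹ * y⁻¹) * η₁.lin = (l ^ n)⁻¹ * x := by
        rw [h₁]
        group
      rw [h1, h2, map_smul]
      congr 1
      have h3 : ((un l x n : (Op N)ˣ) : Op N) t =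
          (((l ^ n)⁻¹ * x : (Op N)ˣ) : Op N) (((l ^ n : (Op N)ˣ) : Op N) t) := by
        rw [un, Units.val_mul ((l ^ n)⁻¹ * x)]
        rfl
      rw [h3, l_pow_t hlox.l_t]
    have e3 : (((l ^ n)⁻¹ * (d⁻¹ * y⁻¹) : (Op N)ˣ) : Op N)
        (((η₁.lin * l ^ n : (Op N)ˣ) : Op N) η₂.tr) = (un l x n : Op N) η₂.tr := by
      have h1 : (((l ^ n)⁻¹ * (d⁻¹ * y⁻¹) : (Op N)ˣ) : Op N)
          (((η₁.lin * l ^ n : (Op N)ˣ) : Op N) η₂.tr) =
          (((l ^ n)⁻¹ * (d⁻¹ * y⁻¹) * (η₁.lin * l ^ n) : (Op N)ˣ) : Op N) η₂.tr := by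
        rw [Units.val_mul ((l ^ n)⁻¹ * (d⁻¹ * y⁻¹)) (η₁.lin * l ^ n)]
        rfl
      have h2 : (l ^ n)⁻¹ * (d⁻¹ * y⁻¹) * (η₁.lin * l ^ n) = un l x n := by
        rw [h₁, un]
        group
      rw [h1, h2]
    rw [htr, map_add, map_add, e1, e2, e3]
    abel
  rw [hA, hPL, hB] at hrel
  rw [← hyL, Ring.inverse_unit, ← hdD]
  rw [map_add, map_smul, map_add, map_smul, inner_add_left, inner_smul_left] at hrel
  simp only [conj_trivial] at hrel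
  linear_combination hrel

/-- the polynomial `⟪PL y(x g)⁻¹ x t, e⟫ - ⟪PL t, e⟫`, times a power of `D` -/
noncomputable def Psi (c : Cell G ι) (D : Op N → ℝ) (Q : Op N → Op N) (t e : V N)
    (x g : Op N) : ℝ :=
  inner ℝ (c.PL (yInv (Fintype.card ι) D Q (x * g) (x t))) e -
    D (x * g) ^ (Fintype.card ι) * inner ℝ (c.PL t) e

lemma polyFun_Psi {D : Op N → ℝ} {Q : Op N → Op N} (hD : D ∈ PolyFun (Op N))
    (hQ : IsPolyMap Q) (t e : V N) {W : Type*} [AddCommGroup W] [Module ℝ W] {f g : W → Op N}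
    (hf : IsPolyMap f) (hg : IsPolyMap g) :
    (fun T => c.Psi D Q t e (f T) (g T)) ∈ PolyFun W := by
  unfold Psi
  have hfg : IsPolyMap (fun T => f T * g T) := hf.mul hg
  refine PolyFun.sub ?_ (PolyFun.mul (PolyFun.pow (PolyFun.comp hD hfg) _) (PolyFun.const _))
  have h1 : IsPolyMap (fun T => yInv (Fintype.card ι) D Q (f T * g T) (f T t)) :=
    IsPolyMap.apply ((isPolyMap_yInv _ hD hQ).comp hfg) (IsPolyMap.apply hf (IsPolyMap.const t))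
  have h2 := h1 (((innerSL ℝ e) ∘L c.PL : V N →L[ℝ] ℝ) : V N →ₗ[ℝ] ℝ)
  refine (congrArg (· ∈ PolyFun W) (funext fun T => ?_)).mp h2
  change inner ℝ e (c.PL (yInv (Fintype.card ι) D Q (f T * g T) (f T t))) =
    inner ℝ (c.PL (yInv (Fintype.card ι) D Q (f T * g T) (f T t))) e
  exact real_inner_comm _ _

lemma Psi_of_reg {D : Op N → ℝ} {Q : Op N → Op N} (hDreg : ∀ T, Reg c.P T ↔ D T ≠ 0)
    (hyL : ∀ T, Reg c.P T → yL c.P T = (D T)⁻¹ • Q T) (t e : V N) {x g : Op N}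
    (h : Reg c.P (x * g)) :
    c.Psi D Q t e x g = D (x * g) ^ (Fintype.card ι) *
      (inner ℝ (c.PL (Ring.inverse (yL c.P (x * g)) (x t))) e - inner ℝ (c.PL t) e) := by
  rw [Psi, yInv_eq c.grading hDreg hyL h, mul_sub]
  congr 1
  change inner ℝ (c.PL (D (x * g) ^ Fintype.card ι •
    (Ring.inverse (yL c.P (x * g)) (x t)))) e = _
  rw [map_smul, inner_smul_left]
  simp

/-- the conclusion of the asymptotic argument -/
theorem Good.Psi_eq_zero {Γ : Subgroup (Aff (V N))} (hΓ : c.Good Γ) {e : V N}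
    (φ : (ι → ℝ) →ₗ[ℝ] ℝ)
    (h : ∀ γ ∈ Γ, ∀ F l t, c.ALox γ F l t → inner ℝ (c.PL t) e = φ (c.tau (l : Op N)))
    {γ₀ F : Aff (V N)} {l : (Op N)ˣ} {t : V N} (hγ₀ : γ₀ ∈ Γ) (hlox : c.ALox γ₀ F l t)
    {η₁ η₂ : Aff (V N)} (hη₁ : F * η₁ * F⁻¹ ∈ Γ) (hη₂ : F * η₂ * F⁻¹ ∈ Γ)
    {D : Op N → ℝ} {Q : Op N → Op N} (hD : D ∈ PolyFun (Op N))
    (hQ : IsPolyMap Q) (hDreg : ∀ T, Reg c.P T ↔ D T ≠ 0)
    (hyL : ∀ T, Reg c.P T → yL c.P T = (D T)⁻¹ • Q T)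
    (hr₁ : Reg c.P (η₁.lin : Op N)) (hr₂ : Reg c.P (η₂.lin : Op N)) :
    c.Psi D Q t e (xU c.P (η₁.lin : Op N)) (η₂.lin : Op N) = 0 := by
  have hη₁G := conj_lin_mem hΓ hlox.F_mem hη₁
  have hη₂G := conj_lin_mem hΓ hlox.F_mem hη₂
  obtain ⟨y, hy, d, hd, x, hx, hfac, -, -, hxU⟩ := c.exists_LU hη₁G hr₁
  rw [← hxU]
  set m : Op N := c.iso (l : Op N) with hm'
  have hm : star m * m = 1 := c.star_iso hlox.l_mem
  -- the sequence
  set T : ℕ → (Op N)ˣ := fun n => un l x n * η₂.lin with hT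
  have hTG : ∀ n, T n ∈ G := fun n => G.mul_mem (un_mem hlox.l_mem hx n) hη₂G
  have hun : ExpSum m (fun n => (un l x n : Op N)) := expSum_un hlox.l_mem x
  have hTval : ∀ n, (T n : Op N) = (un l x n : Op N) * (η₂.lin : Op N) := fun n =>
    Units.val_mul _ _
  have hTE : ExpSum m (fun n => (T n : Op N)) := by
    simp only [hTval]
    exact hun.mul (ExpSum.const _)
  obtain ⟨a, ha, hlim⟩ := isBigO_un hlox.l_mem hlox.dom hx
  have hTlim : (fun n => (T n : Op N) - η₂.lin) =O[atTop] fun n : ℕ => Real.exp (a * n) := by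
    have h1 : (fun n => (T n : Op N) - η₂.lin) = fun n =>
        ((un l x n : Op N) - 1) * (η₂.lin : Op N) := by
      funext n
      rw [hTval, sub_mul, one_mul]
    rw [h1]
    have h2 : (fun _ : ℕ => (η₂.lin : Op N)) =O[atTop] fun _ : ℕ => (1 : ℝ) :=
      isBigO_const_one ℝ _ _
    simpa only [mul_one] using hlim.mul h2
  have htend := tendsto_of_isBigO_exp ha hTlim
  have hreg := eventually_reg hr₂ htend
  have hyA : Asy m (fun n => Ring.inverse (yL c.P (T n : Op N))) :=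
    Asy.yL_inverse hm c.grading hTE.asy hr₂ ha hTlim
  -- the coefficient of `n`
  have hinner : ∀ {v : ℕ → V N}, Asy m v →
      Asy m (fun n => inner ℝ (c.PL (Ring.inverse (yL c.P (T n : Op N)) (v n))) e) := by
    intro v hv
    exact Asy.inner hm (Asy.apply hm (Asy.const c.PL) (Asy.apply hm hyA hv)) (Asy.const e)
  have hf : Asy m (fun n => inner ℝ (c.PL (Ring.inverse (yL c.P (T n : Op N))
      ((un l x n : Op N) t))) e - inner ℝ (c.PL t) e) :=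
    (hinner (Asy.apply hm hun.asy (Asy.const t))).sub (Asy.const _)
  have hg : Asy m (fun n => inner ℝ (c.PL (Ring.inverse (yL c.P (T n : Op N))
      ((((l⁻¹ : (Op N)ˣ) : Op N) ^ n) (((d⁻¹ * y⁻¹ : (Op N)ˣ) : Op N) η₁.tr) +
          (un l x n : Op N) η₂.tr))) e - φ (c.tau (d : Op N)) -
        φ (c.tau (dD c.P (T n : Op N)))) := by
    refine ((hinner (Asy.add ?_ ?_)).sub (Asy.const _)).sub ?_
    · exact Asy.apply hm (c.expSum_inv_pow hlox.l_mem).asy (Asy.const _)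
    · exact Asy.apply hm hun.asy (Asy.const _)
    · exact phi_tau_asy hm φ hTG hTE.asy hη₂G hr₂ ha hTlim
  have hzero : ∀ᶠ n : ℕ in atTop,
      (n : ℝ) * (inner ℝ (c.PL (Ring.inverse (yL c.P (T n : Op N))
        ((un l x n : Op N) t))) e - inner ℝ (c.PL t) e) +
      (inner ℝ (c.PL (Ring.inverse (yL c.P (T n : Op N))
        ((((l⁻¹ : (Op N)ˣ) : Op N) ^ n) (((d⁻¹ * y⁻¹ : (Op N)ˣ) : Op N) η₁.tr) +
          (un l x n : Op N) η₂.tr))) e - φ (c.tau (d : Op N)) -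
        φ (c.tau (dD c.P (T n : Op N)))) = 0 := by
    filter_upwards [hreg] with n hn
    exact hΓ.rel_product φ h hγ₀ hlox hη₁ hη₂ hy hd hx hfac n hn
  have hsmall := Asy.unique hm hf hg hzero
  -- the polynomial is an `ExpSum` which decays faster than all exponentials
  have hPE : ExpSum m (fun n => c.Psi D Q t e (un l x n : Op N) (η₂.lin : Op N)) :=
    ExpSum.polyFun (Q := fun S => c.Psi D Q t e S (η₂.lin : Op N))
      (polyFun_Psi hD hQ t e IsPolyMap.id (IsPolyMap.const _)) hun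
  have hDb : (fun n => D (T n : Op N) ^ Fintype.card ι) =O[atTop] fun _ : ℕ => (1 : ℝ) := by
    have h1 : Tendsto (fun n => D (T n : Op N) ^ Fintype.card ι) atTop
        (𝓝 (D (η₂.lin : Op N) ^ Fintype.card ι)) :=
      (((PolyFun.continuous hD).tendsto _).comp htend).pow _
    exact h1.isBigO_one ℝ
  have hPs : ∀ b : ℝ, (fun n => c.Psi D Q t e (un l x n : Op N) (η₂.lin : Op N)) =O[atTop]
      fun n : ℕ => Real.exp (b * n) := by
    intro b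
    have h1 := hDb.mul (hsmall b)
    refine (h1.congr_right fun n => one_mul _).congr' ?_ EventuallyEq.rfl
    filter_upwards [hreg] with n hn
    rw [hTval] at hn
    rw [Psi_of_reg hDreg hyL t e hn, hTval]
  have h0 := ExpSum.eq_zero hm hPE hPs 0
  rw [un_zero] at h0
  exact h0

end Cell

end Pool.Agent.Lib.MP_d9b062_al
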